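import Mathlib

/-!
# Maps to the integers with unit steps along edges

Basic facts on the uniform distribution on the maps `f : V → ℤ` with `f v₀ = 0` and
`|f u - f v| = 1` for all edges: base change, the reflection involution, and the exponential moment
bound for increments.
-/

namespace Pool.Agent.BHM

open Finset

variable {V : Type} [Fintype V] [DecidableEq V]

/-- `f` changes by exactly one along every edge. -/
def IsStep (G : SimpleGraph V) (f : V → ℤ) : Prop := ∀ u v, G.Adj u v → |f u - f v| = 1

/-- The step maps with value `0` at `v₀`. -/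
def homSet (G : SimpleGraph V) (v₀ : V) : Set (V → ℤ) :=
  {f | f v₀ = 0 ∧ ∀ u v, G.Adj u v → |f u - f v| = 1}

omit [Fintype V] [DecidableEq V] in
theorem abs_sub_le_length {G : SimpleGraph V} {f : V → ℤ} (hf : IsStep G f) {u v : V}
    (p : G.Walk u v) : |f u - f v| ≤ p.length := by
  induction p with
  | nil => simp
  | cons h p ih =>
    rename_i a b c
    have h1 := hf a b h
    rw [SimpleGraph.Walk.length_cons]
    push_cast
    calc |f a - f c| = |(f a - f b) + (f b - f c)| := by ring_nf
      _ ≤ |f a - f b| + |f b - f c| := abs_add_le _ _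
      _ ≤ _ := by omega

theorem homSet_finite {G : SimpleGraph V} (hG : G.Connected) (v₀ : V) :
    (homSet G v₀).Finite := by
  classical
  apply Set.Finite.subset
    (Fintype.piFinset (fun _ : V => Finset.Icc (-(Fintype.card V : ℤ)) (Fintype.card V : ℤ))).finite_toSet
  rintro f ⟨hf0, hf⟩
  rw [Finset.mem_coe, Fintype.mem_piFinset]
  intro v
  obtain ⟨p, hp⟩ := (hG v v₀).exists_walk_length_eq_dist
  have h1 := abs_sub_le_length (f := f) hf p
  rw [hf0, sub_zero] at h1
  have h2 : p.length ≤ Fintype.card V := by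
    rw [hp]
    obtain ⟨q, hq⟩ := (hG v v₀).exists_isPath
    exact (SimpleGraph.dist_le q).trans (hq.length_lt.le)
  rw [Finset.mem_Icc]
  have h3 : |f v| ≤ (Fintype.card V : ℤ) := h1.trans (by exact_mod_cast h2)
  exact abs_le.mp h3

/-- The finite set of step maps vanishing at `v₀`. -/
noncomputable def homs (G : SimpleGraph V) (hG : G.Connected) (v₀ : V) : Finset (V → ℤ) :=
  (homSet_finite hG v₀).toFinset

theorem mem_homs {G : SimpleGraph V} {hG : G.Connected} {v₀ : V} {f : V → ℤ} :
    f ∈ homs G hG v₀ ↔ f v₀ = 0 ∧ IsStep G f := by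
  unfold homs
  rw [Set.Finite.mem_toFinset]
  exact Iff.rfl

theorem homs_nonempty {G : SimpleGraph V} (hG : G.Connected) (hb : G.Colorable 2) (v₀ : V) :
    (homs G hG v₀).Nonempty := by
  obtain ⟨C⟩ := hb
  refine ⟨fun v => if C v = C v₀ then 0 else 1, ?_⟩
  rw [mem_homs]
  refine ⟨by simp, ?_⟩
  intro u v huv
  have h1 : C u ≠ C v := C.valid huv
  by_cases h2 : C u = C v₀
  · have h3 : C v ≠ C v₀ := fun h => h1 (h2.trans h.symm)
    simp [h2, h3]
  · have h3 : C v = C v₀ := by
      have := (C u).isLt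
      have := (C v).isLt
      have := (C v₀).isLt
      apply Fin.ext
      have h4 : (C u).val ≠ (C v).val := fun h => h1 (Fin.ext h)
      have h5 : (C u).val ≠ (C v₀).val := fun h => h2 (Fin.ext h)
      omega
    simp [h2, h3]

/-- Base change: sums of translation invariant functions do not depend on the base point. -/
theorem sum_base {G : SimpleGraph V} (hG : G.Connected) (v₀ u : V) (Φ : (V → ℤ) → ℝ)
    (hΦ : ∀ (f : V → ℤ) (c : ℤ), Φ (fun v => f v + c) = Φ f) :
    ∑ f ∈ homs G hG v₀, Φ f = ∑ f ∈ homs G hG u, Φ f := by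
  refine Finset.sum_nbij' (fun f v => f v - f u) (fun f v => f v - f v₀) ?_ ?_ ?_ ?_ ?_
  · intro f hf
    rw [mem_homs] at hf ⊢
    refine ⟨by simp, ?_⟩
    intro a b hab
    have := hf.2 a b hab
    simpa using this
  · intro f hf
    rw [mem_homs] at hf ⊢
    refine ⟨by simp, ?_⟩
    intro a b hab
    have := hf.2 a b hab
    simpa using this
  · intro f hf
    rw [mem_homs] at hf
    funext v
    simp [hf.1]
  · intro f hf
    rw [mem_homs] at hf
    funext v
    simp [hf.1]
  · intro f _
    have := hΦ f (-f u)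
    simp only [← sub_eq_add_neg] at this
    exact this.symm

theorem card_base {G : SimpleGraph V} (hG : G.Connected) (v₀ u : V) :
    (homs G hG v₀).card = (homs G hG u).card := by
  have := sum_base hG v₀ u (fun _ => 1) (fun _ _ => rfl)
  simpa using this

/-- Symmetry under `f ↦ -f`. -/
theorem sum_neg {G : SimpleGraph V} (hG : G.Connected) (v₀ : V) (Φ : (V → ℤ) → ℝ) :
    ∑ f ∈ homs G hG v₀, Φ (fun v => - f v) = ∑ f ∈ homs G hG v₀, Φ f := by
  refine Finset.sum_nbij' (fun f v => - f v) (fun f v => - f v) ?_ ?_ ?_ ?_ ?_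
  · intro f hf
    rw [mem_homs] at hf ⊢
    refine ⟨by simp [hf.1], ?_⟩
    intro a b hab
    rw [show (-f a - -f b) = -(f a - f b) by ring, abs_neg]
    exact hf.2 a b hab
  · intro f hf
    rw [mem_homs] at hf ⊢
    refine ⟨by simp [hf.1], ?_⟩
    intro a b hab
    rw [show (-f a - -f b) = -(f a - f b) by ring, abs_neg]
    exact hf.2 a b hab
  · intro f _
    simp
  · intro f _
    simp
  · intro f _
    rfl

/-! ### Reflection -/

/-- `v` can be reached from `z` through vertices where `f` does not vanish. -/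
def Reach (G : SimpleGraph V) (f : V → ℤ) (z v : V) : Prop :=
  Relation.ReflTransGen (fun a b => G.Adj a b ∧ f b ≠ 0) z v

open Classical in
/-- Reflect `f` on the component of `z` in the set where `f` does not vanish. -/
noncomputable def reflect (G : SimpleGraph V) (z : V) (f : V → ℤ) : V → ℤ :=
  fun v => if Reach G f z v then - f v else f v

omit [Fintype V] [DecidableEq V] in
theorem reach_ne {G : SimpleGraph V} {f : V → ℤ} {z v : V} (hz : f z ≠ 0) (h : Reach G f z v) :
    f v ≠ 0 := by
  induction h with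
  | refl => exact hz
  | tail _ h _ => exact h.2

omit [Fintype V] [DecidableEq V] in
theorem reach_pos {G : SimpleGraph V} {f : V → ℤ} (hf : IsStep G f) {z v : V} (hz : 0 < f z)
    (h : Reach G f z v) : 0 < f v := by
  induction h with
  | refl => exact hz
  | tail _ h ih =>
    rename_i a b _
    have h1 := hf a b h.1
    have h2 := h.2
    rcases abs_eq (by norm_num : (0 : ℤ) ≤ 1) |>.mp h1 with h3 | h3 <;> omega

omit [Fintype V] [DecidableEq V] in
theorem reach_neg {G : SimpleGraph V} {f : V → ℤ} (hf : IsStep G f) {z v : V} (hz : f z < 0)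
    (h : Reach G f z v) : f v < 0 := by
  induction h with
  | refl => exact hz
  | tail _ h ih =>
    rename_i a b _
    have h1 := hf a b h.1
    have h2 := h.2
    rcases abs_eq (by norm_num : (0 : ℤ) ≤ 1) |>.mp h1 with h3 | h3 <;> omega

omit [Fintype V] [DecidableEq V] in
theorem reflect_ne {G : SimpleGraph V} {f : V → ℤ} {z : V} (v : V) :
    reflect G z f v ≠ 0 ↔ f v ≠ 0 := by
  unfold reflect
  split_ifs <;> simp

omit [Fintype V] [DecidableEq V] in
theorem reach_reflect {G : SimpleGraph V} {f : V → ℤ} {z : V} (v : V) :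
    Reach G (reflect G z f) z v ↔ Reach G f z v := by
  unfold Reach
  have : (fun a b => G.Adj a b ∧ reflect G z f b ≠ 0) = (fun a b => G.Adj a b ∧ f b ≠ 0) := by
    funext a b
    rw [reflect_ne]
  rw [this]

omit [Fintype V] [DecidableEq V] in
theorem reflect_reflect {G : SimpleGraph V} {f : V → ℤ} {z : V} :
    reflect G z (reflect G z f) = f := by
  funext v
  by_cases h : Reach G f z v
  · have h' : Reach G (reflect G z f) z v := (reach_reflect v).mpr h
    rw [reflect, if_pos h', reflect, if_pos h, neg_neg]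
  · have h' : ¬ Reach G (reflect G z f) z v := fun h'' => h ((reach_reflect v).mp h'')
    rw [reflect, if_neg h', reflect, if_neg h]

omit [Fintype V] [DecidableEq V] in
theorem reflect_isStep {G : SimpleGraph V} {f : V → ℤ} (hf : IsStep G f) {z : V} :
    IsStep G (reflect G z f) := by
  intro a b hab
  have h1 := hf a b hab
  by_cases ha : Reach G f z a
  · by_cases hb : Reach G f z b
    · rw [reflect, reflect, if_pos ha, if_pos hb, ← abs_neg]
      rw [show -(-f a - -f b) = f a - f b by ring]
      exact h1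
    · have hfb : f b = 0 := by
        by_contra h
        exact hb (Relation.ReflTransGen.tail ha ⟨hab, h⟩)
      rw [reflect, reflect, if_pos ha, if_neg hb, hfb, sub_zero, abs_neg]
      rw [hfb, sub_zero] at h1
      exact h1
  · by_cases hb : Reach G f z b
    · have hfa : f a = 0 := by
        by_contra h
        exact ha (Relation.ReflTransGen.tail hb ⟨hab.symm, h⟩)
      rw [reflect, reflect, if_neg ha, if_pos hb, hfa, zero_sub, neg_neg]
      rw [hfa, zero_sub, abs_neg] at h1
      exact h1
    · rw [reflect, reflect, if_neg ha, if_neg hb]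
      exact h1

/-- The correlation inequality behind the comparison with simple random walk. -/
theorem sum_exp_mul_nonneg {G : SimpleGraph V} (hG : G.Connected) (x y z : V) (hyz : G.Adj y z)
    (θ : ℝ) (hθ : 0 ≤ θ) :
    0 ≤ ∑ f ∈ homs G hG y, Real.exp (θ * (f x : ℝ)) * (f z : ℝ) := by
  have hfz : ∀ f ∈ homs G hG y, f z ≠ 0 := by
    intro f hf h
    rw [mem_homs] at hf
    have := hf.2 y z hyz
    rw [hf.1, h] at this
    simp at this
  have hbij : ∑ f ∈ homs G hG y, Real.exp (θ * (f x : ℝ)) * (f z : ℝ) =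
      ∑ f ∈ homs G hG y, Real.exp (θ * (reflect G z f x : ℝ)) * (reflect G z f z : ℝ) := by
    refine (Finset.sum_nbij' (fun f => reflect G z f) (fun f => reflect G z f) ?_ ?_ ?_ ?_ ?_).symm
    · intro f hf
      rw [mem_homs] at hf ⊢
      refine ⟨?_, reflect_isStep hf.2⟩
      by_contra h
      exact ((reflect_ne y).mp h) hf.1
    · intro f hf
      rw [mem_homs] at hf ⊢
      refine ⟨?_, reflect_isStep hf.2⟩
      by_contra h
      exact ((reflect_ne y).mp h) hf.1
    · intro f _
      exact reflect_reflect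
    · intro f _
      exact reflect_reflect
    · intro f _
      rfl
  have h2 : 0 ≤ ∑ f ∈ homs G hG y, (Real.exp (θ * (f x : ℝ)) * (f z : ℝ) +
      Real.exp (θ * (reflect G z f x : ℝ)) * (reflect G z f z : ℝ)) := by
    apply Finset.sum_nonneg
    intro f hf
    have h1 := hfz f hf
    rw [mem_homs] at hf
    have hzz : reflect G z f z = - f z := by
      rw [reflect, if_pos]
      exact Relation.ReflTransGen.refl
    rw [hzz]
    by_cases hx : Reach G f z x
    · have hxx : reflect G z f x = - f x := by rw [reflect, if_pos hx]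
      rw [hxx]
      push_cast
      rcases lt_or_gt_of_ne h1 with hneg | hpos
      · have hxneg := reach_neg hf.2 hneg hx
        have h3 : (f z : ℝ) < 0 := by exact_mod_cast hneg
        have h4 : (f x : ℝ) < 0 := by exact_mod_cast hxneg
        have h5 : Real.exp (θ * (f x : ℝ)) ≤ Real.exp (θ * (-(f x : ℝ))) := by
          apply Real.exp_le_exp.mpr
          nlinarith
        nlinarith
      · have hxpos := reach_pos hf.2 hpos hx
        have h3 : 0 < (f z : ℝ) := by exact_mod_cast hpos
        have h4 : 0 < (f x : ℝ) := by exact_mod_cast hxpos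
        have h5 : Real.exp (θ * (-(f x : ℝ))) ≤ Real.exp (θ * (f x : ℝ)) := by
          apply Real.exp_le_exp.mpr
          nlinarith
        nlinarith
    · have hxx : reflect G z f x = f x := by rw [reflect, if_neg hx]
      rw [hxx]
      push_cast
      linarith
  rw [Finset.sum_add_distrib, ← hbij] at h2
  linarith

/-- One step of the comparison. -/
theorem sum_exp_step {G : SimpleGraph V} (hG : G.Connected) (v₀ x y z : V) (hyz : G.Adj y z)
    (θ : ℝ) (hθ : 0 ≤ θ) :
    ∑ f ∈ homs G hG v₀, Real.exp (θ * ((f x - f z : ℤ) : ℝ)) ≤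
      Real.cosh θ * ∑ f ∈ homs G hG v₀, Real.exp (θ * ((f x - f y : ℤ) : ℝ)) := by
  rw [sum_base hG v₀ y (fun f => Real.exp (θ * ((f x - f z : ℤ) : ℝ)))
    (by intro f c; simp), sum_base hG v₀ y (fun f => Real.exp (θ * ((f x - f y : ℤ) : ℝ)))
    (by intro f c; simp)]
  have h1 : ∀ f ∈ homs G hG y, Real.exp (θ * ((f x - f z : ℤ) : ℝ)) =
      Real.cosh θ * Real.exp (θ * ((f x - f y : ℤ) : ℝ)) -
        Real.sinh θ * (Real.exp (θ * (f x : ℝ)) * (f z : ℝ)) := by
    intro f hf
    rw [mem_homs] at hf
    have h2 := hf.2 y z hyz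
    rw [hf.1, zero_sub, abs_neg] at h2
    rw [hf.1, sub_zero]
    push_cast
    rw [mul_sub, sub_eq_add_neg (θ * (f x : ℝ)), Real.exp_add]
    rcases abs_eq (by norm_num : (0 : ℤ) ≤ 1) |>.mp h2 with h3 | h3
    · have h5 : Real.exp (-θ) = Real.cosh θ - Real.sinh θ := (Real.cosh_sub_sinh θ).symm
      rw [h3]
      push_cast
      rw [mul_one, mul_one, h5]
      ring
    · have h5 : Real.exp θ = Real.cosh θ + Real.sinh θ := (Real.cosh_add_sinh θ).symm
      rw [h3]
      push_cast
      rw [show -(θ * (-1 : ℝ)) = θ by ring, h5]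
      ring
  rw [Finset.sum_congr rfl h1, Finset.sum_sub_distrib, ← Finset.mul_sum, ← Finset.mul_sum]
  have h3 := sum_exp_mul_nonneg hG x y z hyz θ hθ
  have h4 : 0 ≤ Real.sinh θ := Real.sinh_nonneg_iff.mpr hθ
  nlinarith [mul_nonneg h4 h3]

/-- Exponential moments of increments are at most those of simple random walk. -/
theorem sum_exp_walk {G : SimpleGraph V} (hG : G.Connected) (v₀ : V) (θ : ℝ) (hθ : 0 ≤ θ)
    {z x : V} (p : G.Walk z x) :
    ∑ f ∈ homs G hG v₀, Real.exp (θ * ((f x - f z : ℤ) : ℝ)) ≤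
      Real.cosh θ ^ p.length * (homs G hG v₀).card := by
  induction p with
  | nil => simp
  | cons h p ih =>
    rename_i a b c
    rw [SimpleGraph.Walk.length_cons, pow_succ]
    have h1 := sum_exp_step hG v₀ c b a h.symm θ hθ
    calc _ ≤ _ := h1
      _ ≤ Real.cosh θ * (Real.cosh θ ^ p.length * (homs G hG v₀).card) :=
          mul_le_mul_of_nonneg_left ih (Real.cosh_pos θ).le
      _ = _ := by ring

/-- Sub-Gaussian bound for the increments. -/
theorem sum_exp_le {G : SimpleGraph V} (hG : G.Connected) (v₀ : V) (θ : ℝ) (hθ : 0 ≤ θ)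
    (x z : V) (σ : ℝ) (hσ : (G.dist z x : ℝ) ≤ σ) :
    ∑ f ∈ homs G hG v₀, Real.exp (θ * ((f x - f z : ℤ) : ℝ)) ≤
      Real.exp (θ ^ 2 * σ / 2) * (homs G hG v₀).card := by
  obtain ⟨p, hp⟩ := (hG z x).exists_walk_length_eq_dist
  refine (sum_exp_walk hG v₀ θ hθ p).trans ?_
  apply mul_le_mul_of_nonneg_right _ (Nat.cast_nonneg _)
  calc Real.cosh θ ^ p.length ≤ (Real.exp (θ ^ 2 / 2)) ^ p.length :=
        pow_le_pow_left₀ (Real.cosh_pos θ).le (Real.cosh_le_exp_half_sq θ) _
    _ = Real.exp ((p.length : ℝ) * (θ ^ 2 / 2)) := by rw [← Real.exp_nat_mul]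
    _ ≤ Real.exp (θ ^ 2 * σ / 2) := by
        apply Real.exp_le_exp.mpr
        rw [hp]
        nlinarith [sq_nonneg θ]

end Pool.Agent.BHM
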