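import Mathlib
import Pool.Agent.BHM.Hom

/-!
# Chaining bound for the expected number of values
-/

namespace Pool.Agent.BHM

open Finset

variable {V : Type} [Fintype V] [DecidableEq V]

/-- The number of values is at most the range plus one. -/
theorem card_image_le_range [Nonempty V] (f : V → ℤ) :
    ∃ x₁ x₂ : V, ((univ.image f).card : ℤ) ≤ f x₁ - f x₂ + 1 := by
  obtain ⟨x₁, _, h1⟩ := Finset.exists_max_image (univ : Finset V) f Finset.univ_nonempty
  obtain ⟨x₂, _, h2⟩ := Finset.exists_min_image (univ : Finset V) f Finset.univ_nonempty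
  refine ⟨x₁, x₂, ?_⟩
  have hsub : univ.image f ⊆ Finset.Icc (f x₂) (f x₁) := by
    intro a ha
    rw [Finset.mem_image] at ha
    obtain ⟨x, _, rfl⟩ := ha
    rw [Finset.mem_Icc]
    exact ⟨h2 x (mem_univ x), h1 x (mem_univ x)⟩
  have h3 := Finset.card_le_card hsub
  rw [Int.card_Icc] at h3
  have h4 : f x₂ ≤ f x₁ := h1 x₂ (mem_univ x₂)
  have h5 : ((univ.image f).card : ℤ) ≤ ((f x₁ + 1 - f x₂).toNat : ℤ) := by exact_mod_cast h3
  rw [Int.toNat_of_nonneg (by omega)] at h5
  linarith

/-- A thin residue class of levels. -/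
theorem exists_residue (d : V → ℕ) (b : ℕ) (hb : 1 ≤ b) :
    ∃ r, r < b ∧ (univ.filter (fun x => d x % b = r)).card * b ≤ Fintype.card V := by
  by_contra hcon
  push Not at hcon
  have h1 : (univ : Finset V).card =
      ∑ r ∈ Finset.range b, ((univ : Finset V).filter (fun x => d x % b = r)).card :=
    Finset.card_eq_sum_card_fiberwise (fun x _ => by
      rw [Finset.mem_coe, Finset.mem_range]; exact Nat.mod_lt _ (by omega))
  rw [Finset.card_univ] at h1
  have h2 : ∑ r ∈ Finset.range b, Fintype.card V <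
      ∑ r ∈ Finset.range b, ((univ : Finset V).filter (fun x => d x % b = r)).card * b := by
    apply Finset.sum_lt_sum_of_nonempty
    · rw [Finset.nonempty_range_iff]; omega
    · intro r hr
      exact hcon r (Finset.mem_range.mp hr)
  rw [Finset.sum_const, Finset.card_range, smul_eq_mul, ← Finset.sum_mul, ← h1] at h2
  rw [mul_comm] at h2
  exact lt_irrefl _ h2

/-- A vertex at prescribed distance on a geodesic. -/
theorem exists_on_geodesic {G : SimpleGraph V} (hG : G.Connected) (c x : V) (i : ℕ)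
    (hi : i ≤ G.dist c x) : ∃ y, G.dist c y = i ∧ G.dist y x = G.dist c x - i := by
  obtain ⟨p, hp⟩ := (hG c x).exists_walk_length_eq_dist
  refine ⟨p.getVert i, ?_⟩
  have h1 : G.dist c (p.getVert i) ≤ i := by
    refine (SimpleGraph.dist_le (p.take i)).trans ?_
    rw [SimpleGraph.Walk.take_length]
    exact min_le_left _ _
  have h2 : G.dist (p.getVert i) x ≤ G.dist c x - i := by
    refine (SimpleGraph.dist_le (p.drop i)).trans ?_
    rw [SimpleGraph.Walk.drop_length, hp]
  have h3 := hG.dist_triangle (u := c) (v := p.getVert i) (w := x)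
  omega

theorem exists_anc {G : SimpleGraph V} (hG : G.Connected) (c x : V) (b r : ℕ) (hr : r < b) :
    ∃ y, (y = c ∨ G.dist c y % b = r) ∧ G.dist y x ≤ b - 1 := by
  by_cases h : r ≤ G.dist c x
  · -- the largest `i ≤ d` with `i % b = r`
    set d := G.dist c x with hd
    have hlt : (d - r) % b < b := Nat.mod_lt _ (by omega)
    have hle : (d - r) % b ≤ d - r := Nat.mod_le _ _
    obtain ⟨y, hy1, hy2⟩ := exists_on_geodesic hG c x (d - (d - r) % b) (Nat.sub_le _ _)
    refine ⟨y, Or.inr ?_, ?_⟩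
    · rw [hy1]
      have h1 : d - (d - r) % b = r + b * ((d - r) / b) := by
        have := Nat.mod_add_div (d - r) b
        omega
      rw [h1, Nat.add_mul_mod_self_left, Nat.mod_eq_of_lt hr]
    · rw [hy2]
      omega
  · refine ⟨c, Or.inl rfl, ?_⟩
    omega

theorem geom_bound (J : ℕ) : ∑ j ∈ Finset.range J, (1 : ℝ) / 10 ^ j ≤ 10 / 9 := by
  have h : ∀ J : ℕ, ∑ j ∈ Finset.range J, (1 : ℝ) / 10 ^ j = 10 / 9 - 10 / 9 / 10 ^ J := by
    intro J
    induction J with
    | zero => simp
    | succ J ih =>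
      rw [Finset.sum_range_succ, ih, pow_succ]
      field_simp
      ring
  rw [h]
  have : (0 : ℝ) ≤ 10 / 9 / 10 ^ J := by positivity
  linarith

theorem geom_bound' (J : ℕ) : ∑ j ∈ Finset.range J, (j : ℝ) / 10 ^ j ≤ 10 / 81 := by
  have h : ∀ J : ℕ, ∑ j ∈ Finset.range J, (j : ℝ) / 10 ^ j =
      10 / 81 - (90 * J + 10) / 81 / 10 ^ J := by
    intro J
    induction J with
    | zero => simp
    | succ J ih =>
      rw [Finset.sum_range_succ, ih, pow_succ]
      push_cast
      field_simp
      ring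
  rw [h]
  have : (0 : ℝ) ≤ (90 * J + 10) / 81 / 10 ^ J := by positivity
  linarith

/-- The chaining bound: if all vertices are at distance less than `R` from `c`, the average number
of values is at most `1 + 2 √R (((10/9) log (100 n / R) + (10/81) log 100) / t + (5/9) t)`. -/
theorem sum_card_le {G : SimpleGraph V} (hG : G.Connected) (v₀ c : V) (R : ℕ) (hR : 1 ≤ R)
    (hRn : R ≤ Fintype.card V) (hrad : ∀ x, G.dist c x < R) (t : ℝ) (ht : 0 < t) :
    ∑ f ∈ homs G hG v₀, ((univ.image f).card : ℝ) ≤ (homs G hG v₀).card *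
      (1 + 2 * (Real.sqrt R * (((10 / 9) * Real.log (100 * Fintype.card V / R) +
        (10 / 81) * Real.log 100) / t + (5 / 9) * t))) := by
  classical
  haveI : Nonempty V := ⟨c⟩
  set n : ℕ := Fintype.card V with hn
  set H := homs G hG v₀ with hH
  -- scales
  set b : ℕ → ℕ := fun j => (R - 1) / 100 ^ j + 1 with hb
  have hb1 : ∀ j, 1 ≤ b j := fun j => by simp [hb]
  choose r hr hrcard using fun j => exists_residue (fun x => G.dist c x) (b j) (hb1 j)
  let N : ℕ → Finset V := fun j => univ.filter (fun x => G.dist c x % b j = r j)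
  let S : ℕ → Finset V := fun j => match j with
    | 0 => {c}
    | (j + 1) => insert c (N (j + 1))
  have hanc : ∀ j x, ∃ y, y ∈ S j ∧ G.dist y x ≤ b j - 1 := by
    intro j x
    cases j with
    | zero =>
      refine ⟨c, by simp [S], ?_⟩
      have := hrad x
      simp only [hb, pow_zero, Nat.div_one]
      omega
    | succ j =>
      obtain ⟨y, hy, hyx⟩ := exists_anc hG c x (b (j + 1)) (r (j + 1)) (hr (j + 1))
      refine ⟨y, ?_, hyx⟩
      rcases hy with rfl | hy
      · exact Finset.mem_insert_self _ _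
      · exact Finset.mem_insert_of_mem (by simp [N, hy])
  choose anc hancS hancd using hanc
  have hRpos : (0 : ℝ) < R := by exact_mod_cast hR
  have hnpos : (0 : ℝ) < n := by
    have : 0 < n := by omega
    exact_mod_cast this
  set θ₀ : ℝ := t / Real.sqrt R with hθ₀
  have hsR : 0 < Real.sqrt R := Real.sqrt_pos.mpr hRpos
  have hθ₀pos : 0 < θ₀ := div_pos ht hsR
  let θ : ℕ → ℝ := fun j => θ₀ * 10 ^ j
  let σ : ℕ → ℝ := fun j => R / 100 ^ j
  let ν : ℕ → ℝ := fun j => n * 100 ^ (j + 1) / R
  let a : ℕ → ℝ := fun j => Real.log (ν j) + (θ j) ^ 2 * σ j / 2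
  have hθpos : ∀ j, 0 < θ j := fun j => by positivity
  have hσpos : ∀ j, 0 < σ j := fun j => by positivity
  have hνpos : ∀ j, 0 < ν j := fun j => by positivity
  -- distance bound
  have hdist : ∀ j x, (G.dist (anc j x) x : ℝ) ≤ σ j := by
    intro j x
    have h1 := hancd j x
    have h2 : b j - 1 = (R - 1) / 100 ^ j := by simp [hb]
    rw [h2] at h1
    have h3 : ((G.dist (anc j x) x : ℕ) : ℝ) ≤ (((R - 1) / 100 ^ j : ℕ) : ℝ) := by exact_mod_cast h1
    refine h3.trans (Nat.cast_div_le.trans ?_)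
    push_cast
    apply div_le_div_of_nonneg_right _ (by positivity)
    have : ((R - 1 : ℕ) : ℝ) ≤ R := by exact_mod_cast Nat.sub_le R 1
    exact this
  -- cardinality bound
  have hNcard : ∀ j, ((N (j + 1)).card : ℝ) ≤ ν j := by
    intro j
    have h1 : (N (j + 1)).card * b (j + 1) ≤ n := hrcard (j + 1)
    have h2 : (R : ℝ) / 100 ^ (j + 1) ≤ (b (j + 1) : ℝ) := by
      rw [div_le_iff₀ (by positivity)]
      have h3 : R ≤ b (j + 1) * 100 ^ (j + 1) := by
        have h4 := Nat.div_add_mod (R - 1) (100 ^ (j + 1))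
        have h5 := Nat.mod_lt (R - 1) (show 0 < 100 ^ (j + 1) by positivity)
        have h6 : b (j + 1) * 100 ^ (j + 1) =
            100 ^ (j + 1) * ((R - 1) / 100 ^ (j + 1)) + 100 ^ (j + 1) := by
          simp only [hb]; ring
        omega
      exact_mod_cast h3
    have h3 : ((N (j + 1)).card : ℝ) * b (j + 1) ≤ n := by exact_mod_cast h1
    have h4 : ((N (j + 1)).card : ℝ) * ((R : ℝ) / 100 ^ (j + 1)) ≤ n :=
      le_trans (mul_le_mul_of_nonneg_left h2 (Nat.cast_nonneg _)) h3
    change ((N (j + 1)).card : ℝ) ≤ n * 100 ^ (j + 1) / R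
    rw [le_div_iff₀ hRpos]
    have h5 : (0 : ℝ) < 100 ^ (j + 1) := by positivity
    calc ((N (j + 1)).card : ℝ) * R
        = ((N (j + 1)).card : ℝ) * ((R : ℝ) / 100 ^ (j + 1)) * 100 ^ (j + 1) := by
          field_simp
      _ ≤ n * 100 ^ (j + 1) := mul_le_mul_of_nonneg_right h4 h5.le
  have ha1 : ∀ j, 1 ≤ a j := by
    intro j
    have h1 : Real.exp 1 ≤ ν j := by
      have h2 : Real.exp 1 < 2.7182818286 := Real.exp_one_lt_d9
      have h3 : (100 : ℝ) ≤ ν j := by
        change (100 : ℝ) ≤ n * 100 ^ (j + 1) / R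
        rw [le_div_iff₀ hRpos]
        have h4 : (R : ℝ) ≤ n := by exact_mod_cast hRn
        have h5 : (1 : ℝ) ≤ 100 ^ j := one_le_pow₀ (by norm_num)
        rw [pow_succ]
        nlinarith
      linarith
    have h2 : 1 ≤ Real.log (ν j) := (Real.le_log_iff_exp_le (hνpos j)).mpr h1
    have h3 : 0 ≤ (θ j) ^ 2 * σ j / 2 := by
      have := hσpos j
      positivity
    change 1 ≤ Real.log (ν j) + (θ j) ^ 2 * σ j / 2
    linarith
  -- the level functionals
  let B : ℕ → (V → ℤ) → ℝ := fun j f => (1 / θ j) * (a j - 1 +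
    ∑ y ∈ N (j + 1), Real.exp (θ j * ((f y - f (anc j y) : ℤ) : ℝ) - a j))
  have hB0 : ∀ j f, 0 ≤ B j f := by
    intro j f
    apply mul_nonneg (by have := hθpos j; positivity)
    have h1 := ha1 j
    have h2 : 0 ≤ ∑ y ∈ N (j + 1), Real.exp (θ j * ((f y - f (anc j y) : ℤ) : ℝ) - a j) :=
      Finset.sum_nonneg (fun _ _ => (Real.exp_pos _).le)
    linarith
  have hBlink : ∀ j f, ∀ y ∈ N (j + 1), ((f y - f (anc j y) : ℤ) : ℝ) ≤ B j f := by
    intro j f y hy
    have h1 : Real.exp (θ j * ((f y - f (anc j y) : ℤ) : ℝ) - a j) ≤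
        ∑ y ∈ N (j + 1), Real.exp (θ j * ((f y - f (anc j y) : ℤ) : ℝ) - a j) :=
      Finset.single_le_sum (f := fun y => Real.exp (θ j * ((f y - f (anc j y) : ℤ) : ℝ) - a j))
        (fun _ _ => (Real.exp_pos _).le) hy
    have h2 := Real.add_one_le_exp (θ j * ((f y - f (anc j y) : ℤ) : ℝ) - a j)
    change _ ≤ (1 / θ j) * _
    rw [one_div, inv_mul_eq_div, le_div_iff₀ (hθpos j)]
    linarith
  have hchain : ∀ (f : V → ℤ) (j : ℕ), ∀ y ∈ S j,
      ((f y - f c : ℤ) : ℝ) ≤ ∑ i ∈ Finset.range j, B i f := by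
    intro f j
    induction j with
    | zero =>
      intro y hy
      have : y = c := by simpa [S] using hy
      subst this
      simp
    | succ j ih =>
      intro y hy
      rw [Finset.sum_range_succ]
      have hy' : y ∈ insert c (N (j + 1)) := hy
      rw [Finset.mem_insert] at hy'
      rcases hy' with rfl | hy'
      · simp only [sub_self, Int.cast_zero]
        exact add_nonneg (Finset.sum_nonneg (fun i _ => hB0 i f)) (hB0 j f)
      · have h1 := hBlink j f y hy'
        have h2 := ih (anc j y) (hancS j y)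
        have h3 : ((f y - f c : ℤ) : ℝ) =
            ((f (anc j y) - f c : ℤ) : ℝ) + ((f y - f (anc j y) : ℤ) : ℝ) := by
          push_cast; ring
        rw [h3]
        exact add_le_add h2 h1
  -- the last level contains everything
  obtain ⟨J, hJ1, hJ⟩ : ∃ J : ℕ, 1 ≤ J ∧ ∀ x, x ∈ S J := by
    refine ⟨R, hR, ?_⟩
    intro x
    obtain ⟨R', rfl⟩ : ∃ R', R = R' + 1 := ⟨R - 1, by omega⟩
    have h1 : b (R' + 1) = 1 := by
      simp only [hb]
      have : R' + 1 - 1 < 100 ^ (R' + 1) := by
        have := Nat.lt_pow_self (show 1 < 100 by norm_num) (n := R' + 1)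
        omega
      rw [Nat.div_eq_of_lt this]
    have h2 : r (R' + 1) = 0 := by
      have := hr (R' + 1)
      rw [h1] at this
      omega
    apply Finset.mem_insert_of_mem
    simp only [N, Finset.mem_filter, Finset.mem_univ, true_and]
    rw [h1, h2, Nat.mod_one]
  -- pointwise bound
  have hpoint : ∀ f : V → ℤ, ((univ.image f).card : ℝ) ≤
      1 + ∑ i ∈ Finset.range J, B i f + ∑ i ∈ Finset.range J, B i (fun v => - f v) := by
    intro f
    obtain ⟨x₁, x₂, h⟩ := card_image_le_range f
    have h1 := hchain f J x₁ (hJ x₁)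
    have h2 := hchain (fun v => - f v) J x₂ (hJ x₂)
    have h3 : ((univ.image f).card : ℝ) ≤ ((f x₁ - f x₂ + 1 : ℤ) : ℝ) := by exact_mod_cast h
    push_cast at h1 h2 h3
    linarith
  -- expectation of one level
  have hEB : ∀ j, ∑ f ∈ H, B j f ≤ H.card * (a j / θ j) := by
    intro j
    have h1 : ∑ f ∈ H, ∑ y ∈ N (j + 1), Real.exp (θ j * ((f y - f (anc j y) : ℤ) : ℝ) - a j) ≤
        H.card := by
      rw [Finset.sum_comm]
      have h2 : ∀ y ∈ N (j + 1), ∑ f ∈ H, Real.exp (θ j * ((f y - f (anc j y) : ℤ) : ℝ) - a j) ≤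
          (1 / ν j) * H.card := by
        intro y _
        have h3 := sum_exp_le hG v₀ (θ j) (hθpos j).le y (anc j y) (σ j) (hdist j y)
        have h4 : ∑ f ∈ H, Real.exp (θ j * ((f y - f (anc j y) : ℤ) : ℝ) - a j) =
            Real.exp (- a j) * ∑ f ∈ H, Real.exp (θ j * ((f y - f (anc j y) : ℤ) : ℝ)) := by
          rw [Finset.mul_sum]
          apply Finset.sum_congr rfl
          intro f _
          rw [← Real.exp_add]
          ring_nf
        rw [h4]
        calc Real.exp (- a j) * ∑ f ∈ H, Real.exp (θ j * ((f y - f (anc j y) : ℤ) : ℝ))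
            ≤ Real.exp (- a j) * (Real.exp ((θ j) ^ 2 * σ j / 2) * H.card) :=
              mul_le_mul_of_nonneg_left h3 (Real.exp_pos _).le
          _ = Real.exp (- a j + (θ j) ^ 2 * σ j / 2) * H.card := by
              rw [Real.exp_add]; ring
          _ = (1 / ν j) * H.card := by
              congr 1
              have h5 : - a j + (θ j) ^ 2 * σ j / 2 = - Real.log (ν j) := by
                change -(Real.log (ν j) + (θ j) ^ 2 * σ j / 2) + (θ j) ^ 2 * σ j / 2 = _
                ring
              rw [h5, Real.exp_neg, Real.exp_log (hνpos j), one_div]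
      refine (Finset.sum_le_sum h2).trans ?_
      rw [Finset.sum_const, nsmul_eq_mul, ← mul_assoc]
      have h6 : ((N (j + 1)).card : ℝ) * (1 / ν j) ≤ 1 := by
        rw [mul_one_div, div_le_one (hνpos j)]
        exact hNcard j
      calc ((N (j + 1)).card : ℝ) * (1 / ν j) * H.card ≤ 1 * H.card :=
            mul_le_mul_of_nonneg_right h6 (Nat.cast_nonneg _)
        _ = H.card := one_mul _
    have h2 : ∑ f ∈ H, B j f = (1 / θ j) * (H.card * (a j - 1) +
        ∑ f ∈ H, ∑ y ∈ N (j + 1), Real.exp (θ j * ((f y - f (anc j y) : ℤ) : ℝ) - a j)) := by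
      change ∑ f ∈ H, (1 / θ j) * (a j - 1 + _) = _
      rw [← Finset.mul_sum, Finset.sum_add_distrib, Finset.sum_const, nsmul_eq_mul]
    rw [h2]
    have h3 : (1 / θ j) * (H.card * (a j - 1) +
        ∑ f ∈ H, ∑ y ∈ N (j + 1), Real.exp (θ j * ((f y - f (anc j y) : ℤ) : ℝ) - a j)) ≤
        (1 / θ j) * (H.card * (a j - 1) + H.card) :=
      mul_le_mul_of_nonneg_left (by linarith) (by have := hθpos j; positivity)
    refine h3.trans (le_of_eq ?_)
    have := (hθpos j).ne'
    field_simp
    ring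
  -- sum over the levels
  have hlevels : ∑ j ∈ Finset.range J, a j / θ j ≤
      Real.sqrt R * (((10 / 9) * Real.log (100 * n / R) + (10 / 81) * Real.log 100) / t +
        (5 / 9) * t) := by
    have h1 : ∀ j, a j / θ j = (Real.log (100 * n / R) / θ₀ + θ₀ * R / 2) * (1 / 10 ^ j) +
        (Real.log 100 / θ₀) * ((j : ℝ) / 10 ^ j) := by
      intro j
      have h2 : Real.log (ν j) = Real.log (100 * n / R) + j * Real.log 100 := by
        have h3 : ν j = (100 * n / R) * 100 ^ j := by
          change (n : ℝ) * 100 ^ (j + 1) / R = _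
          rw [pow_succ]; ring
        rw [h3, Real.log_mul (by positivity) (by positivity), Real.log_pow]
      change (Real.log (ν j) + (θ₀ * 10 ^ j) ^ 2 * (R / 100 ^ j) / 2) / (θ₀ * 10 ^ j) = _
      rw [h2]
      have h4 : (100 : ℝ) ^ j = 10 ^ j * 10 ^ j := by
        rw [← mul_pow]; norm_num
      rw [h4]
      have h5 : (10 : ℝ) ^ j ≠ 0 := by positivity
      have h6 := hθ₀pos.ne'
      field_simp
      ring
    rw [Finset.sum_congr rfl (fun j _ => h1 j), Finset.sum_add_distrib, ← Finset.mul_sum,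
      ← Finset.mul_sum]
    have hLpos : 0 ≤ Real.log (100 * n / R) := by
      apply Real.log_nonneg
      rw [le_div_iff₀ hRpos]
      have h4 : (R : ℝ) ≤ n := by exact_mod_cast hRn
      nlinarith
    have hlpos : 0 ≤ Real.log 100 := Real.log_nonneg (by norm_num)
    have h2 := mul_le_mul_of_nonneg_left (geom_bound J)
      (show 0 ≤ Real.log (100 * n / R) / θ₀ + θ₀ * R / 2 by positivity)
    have h3 := mul_le_mul_of_nonneg_left (geom_bound' J)
      (show 0 ≤ Real.log 100 / θ₀ by positivity)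
    refine (add_le_add h2 h3).trans (le_of_eq ?_)
    have h7 : (R : ℝ) = Real.sqrt R * Real.sqrt R := (Real.mul_self_sqrt hRpos.le).symm
    have h8 : θ₀ * R = Real.sqrt R * t := by
      rw [hθ₀]
      nth_rewrite 2 [h7]
      field_simp
    rw [h8, hθ₀]
    field_simp
    ring
  -- conclusion
  calc ∑ f ∈ H, ((univ.image f).card : ℝ)
      ≤ ∑ f ∈ H, (1 + ∑ i ∈ Finset.range J, B i f +
          ∑ i ∈ Finset.range J, B i (fun v => - f v)) :=
        Finset.sum_le_sum (fun f _ => hpoint f)
    _ = H.card + 2 * ∑ i ∈ Finset.range J, ∑ f ∈ H, B i f := by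
        rw [Finset.sum_add_distrib, Finset.sum_add_distrib, Finset.sum_const, nsmul_eq_mul,
          mul_one, sum_neg hG v₀ (fun f => ∑ i ∈ Finset.range J, B i f), Finset.sum_comm]
        ring
    _ ≤ H.card + 2 * ∑ i ∈ Finset.range J, H.card * (a i / θ i) := by
        have := Finset.sum_le_sum (fun i (_ : i ∈ Finset.range J) => hEB i)
        linarith
    _ = H.card * (1 + 2 * ∑ i ∈ Finset.range J, a i / θ i) := by
        rw [← Finset.mul_sum]; ring
    _ ≤ _ := by
        apply mul_le_mul_of_nonneg_left _ (Nat.cast_nonneg _)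
        linarith

end Pool.Agent.BHM
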