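import Mathlib
import Pool.Agent.BHM.Hom

/-!
# The average number of values of simple random walk (the path)
-/

namespace Pool.Agent.BHM

open Finset

theorem isStep_path_iff {m : ℕ} (f : Fin (m + 1) → ℤ) :
    IsStep (SimpleGraph.pathGraph (m + 1)) f ↔ ∀ i : Fin m, |f i.castSucc - f i.succ| = 1 := by
  constructor
  · intro h i
    apply h
    rw [SimpleGraph.pathGraph_adj]
    left
    simp
  · intro h u v huv
    rw [SimpleGraph.pathGraph_adj] at huv
    rcases huv with huv | huv
    · have h1 := h ⟨u.val, by have := v.isLt; omega⟩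
      have h2 : (⟨u.val, by have := v.isLt; omega⟩ : Fin m).castSucc = u := Fin.ext rfl
      have h3 : (⟨u.val, by have := v.isLt; omega⟩ : Fin m).succ = v := Fin.ext huv
      rwa [h2, h3] at h1
    · have h1 := h ⟨v.val, by have := u.isLt; omega⟩
      have h2 : (⟨v.val, by have := u.isLt; omega⟩ : Fin m).castSucc = v := Fin.ext rfl
      have h3 : (⟨v.val, by have := u.isLt; omega⟩ : Fin m).succ = u := Fin.ext huv
      rw [h2, h3, abs_sub_comm] at h1
      exact h1

theorem isStep_cons_iff {m : ℕ} (h : Fin (m + 1) → ℤ) :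
    IsStep (SimpleGraph.pathGraph (m + 2)) (Fin.cons 0 h : Fin (m + 2) → ℤ) ↔
      |h 0| = 1 ∧ IsStep (SimpleGraph.pathGraph (m + 1)) h := by
  rw [isStep_path_iff, isStep_path_iff, Fin.forall_fin_succ]
  have h1 : (Fin.cons 0 h : Fin (m + 2) → ℤ) (Fin.castSucc 0) = 0 := rfl
  have h2 : ∀ i : Fin (m + 1), (Fin.cons 0 h : Fin (m + 2) → ℤ) i.succ = h i := fun i => rfl
  have h3 : ∀ i : Fin m, (Fin.cons 0 h : Fin (m + 2) → ℤ) i.succ.castSucc = h i.castSucc :=
    fun i => rfl
  rw [h1, h2]
  simp only [h2, h3]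
  rw [zero_sub, abs_neg]

/-- The walks with `m` steps. -/
noncomputable def walks (m : ℕ) : Finset (Fin (m + 1) → ℤ) :=
  homs (SimpleGraph.pathGraph (m + 1)) (SimpleGraph.pathGraph_connected m) 0

theorem sum_walks_succ (m : ℕ) (Φ : (Fin (m + 2) → ℤ) → ℝ) :
    ∑ f ∈ walks (m + 1), Φ f = ∑ g ∈ walks m,
      (Φ (Fin.cons 0 (fun i => g i + 1)) + Φ (Fin.cons 0 (fun i => g i - 1))) := by
  have h1 : ∀ g ∈ walks m, Φ (Fin.cons 0 (fun i => g i + 1)) + Φ (Fin.cons 0 (fun i => g i - 1)) =
      ∑ s ∈ ({1, -1} : Finset ℤ), Φ (Fin.cons 0 (fun i => g i + s)) := by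
    intro g _
    rw [Finset.sum_pair (by norm_num)]
    rfl
  rw [Finset.sum_congr rfl h1, ← Finset.sum_product' (walks m) ({1, -1} : Finset ℤ)
    (fun g s => Φ (Fin.cons 0 (fun i => g i + s)))]
  symm
  refine Finset.sum_nbij' (fun p => Fin.cons 0 (fun i => p.1 i + p.2))
    (fun f => (fun i => f i.succ - f 1, f 1)) ?_ ?_ ?_ ?_ ?_
  · rintro ⟨g, s⟩ hp
    rw [Finset.mem_product] at hp
    obtain ⟨hg, hs⟩ := hp
    simp only at hg hs ⊢
    unfold walks at hg ⊢
    rw [mem_homs] at hg ⊢
    refine ⟨rfl, ?_⟩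
    rw [isStep_cons_iff]
    refine ⟨?_, ?_⟩
    · rw [hg.1]
      simp only [Finset.mem_insert, Finset.mem_singleton] at hs
      rcases hs with rfl | rfl <;> simp
    · intro u v huv
      have := hg.2 u v huv
      simpa using this
  · intro f hf
    unfold walks at hf
    rw [mem_homs] at hf
    have h2 : f = Fin.cons 0 (fun i : Fin (m + 1) => f i.succ) := by
      funext i
      refine Fin.cases ?_ (fun j => ?_) i
      · exact hf.1
      · rfl
    have h3 := hf.2
    rw [h2, isStep_cons_iff] at h3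
    rw [Finset.mem_product]
    refine ⟨?_, ?_⟩
    · simp only
      unfold walks
      rw [mem_homs]
      refine ⟨by simp, ?_⟩
      intro u v huv
      have := h3.2 u v huv
      simpa using this
    · simp only [Finset.mem_insert, Finset.mem_singleton]
      have h4 := h3.1
      have h5 : f (Fin.succ 0) = f 1 := by simp
      rw [h5] at h4
      exact abs_eq (by norm_num : (0 : ℤ) ≤ 1) |>.mp h4
  · rintro ⟨g, s⟩ hp
    rw [Finset.mem_product] at hp
    obtain ⟨hg, hs⟩ := hp
    simp only at hg hs ⊢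
    unfold walks at hg
    rw [mem_homs] at hg
    have h5 : (Fin.cons 0 (fun i => g i + s) : Fin (m + 2) → ℤ) 1 = s := by
      change (Fin.cons 0 (fun i => g i + s) : Fin (m + 2) → ℤ) (Fin.succ 0) = s
      rw [Fin.cons_succ, hg.1, zero_add]
    rw [h5]
    congr 1
    funext i
    rw [Fin.cons_succ]
    ring
  · intro f hf
    unfold walks at hf
    rw [mem_homs] at hf
    funext i
    refine Fin.cases ?_ (fun j => ?_) i
    · exact hf.1.symm
    · simp
  · rintro ⟨g, s⟩ _
    rfl

theorem walks_zero : walks 0 = {fun _ => 0} := by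
  ext f
  unfold walks
  rw [mem_homs, Finset.mem_singleton, isStep_path_iff]
  constructor
  · intro h
    funext i
    have hi : i = 0 := Fin.ext (by have := i.isLt; simp only [Fin.val_zero]; omega)
    rw [hi]
    exact h.1
  · rintro rfl
    exact ⟨rfl, fun i => i.elim0⟩

theorem card_walks (m : ℕ) : ((walks m).card : ℝ) = 2 ^ m := by
  induction m with
  | zero =>
    have h1 : walks 0 = {fun _ => 0} := walks_zero
    rw [h1]
    simp
  | succ m ih =>
    have h1 := sum_walks_succ m (fun _ => 1)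
    simp only [Finset.sum_const, nsmul_eq_mul, mul_one] at h1
    rw [h1, ih, pow_succ]
    ring

/-- The maximum of a walk. -/
def M {m : ℕ} (f : Fin (m + 1) → ℤ) : ℕ := Finset.univ.sup (fun i => (f i).toNat)

theorem M_cons {m : ℕ} (g : Fin (m + 1) → ℤ) :
    M (Fin.cons 0 g : Fin (m + 2) → ℤ) = M g := by
  unfold M
  rw [Fin.univ_succ, Finset.sup_cons, Finset.sup_map]
  simp only [Fin.cons_zero, Int.toNat_zero, zero_le, sup_of_le_right, Function.comp_def]
  rfl

theorem M_add_one {m : ℕ} (g : Fin (m + 1) → ℤ) (hg : g 0 = 0) :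
    M (fun i => g i + 1) = M g + 1 := by
  unfold M
  apply le_antisymm
  · apply Finset.sup_le
    intro i hi
    have h1 : (g i).toNat ≤ Finset.univ.sup (fun i => (g i).toNat) :=
      Finset.le_sup (f := fun i => (g i).toNat) hi
    change (g i + 1).toNat ≤ _
    omega
  · obtain ⟨i, hi, h1⟩ := Finset.exists_mem_eq_sup (Finset.univ : Finset (Fin (m + 1)))
      Finset.univ_nonempty (fun i => (g i).toNat)
    rw [h1]
    by_cases h2 : 0 ≤ g i
    · have h3 : (g i + 1).toNat ≤ Finset.univ.sup (fun i => (g i + 1).toNat) :=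
        Finset.le_sup (f := fun i => (g i + 1).toNat) hi
      change (g i).toNat + 1 ≤ _
      refine le_trans ?_ h3
      omega
    · have h3 : (g 0 + 1).toNat ≤ Finset.univ.sup (fun i => (g i + 1).toNat) :=
        Finset.le_sup (f := fun i => (g i + 1).toNat) (Finset.mem_univ 0)
      change (g i).toNat + 1 ≤ _
      refine le_trans ?_ h3
      rw [hg]
      omega

theorem M_sub_one {m : ℕ} (g : Fin (m + 1) → ℤ) :
    M (fun i => g i - 1) = M g - 1 := by
  unfold M
  apply le_antisymm
  · apply Finset.sup_le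
    intro i hi
    have h1 : (g i).toNat ≤ Finset.univ.sup (fun i => (g i).toNat) :=
      Finset.le_sup (f := fun i => (g i).toNat) hi
    change (g i - 1).toNat ≤ _
    omega
  · obtain ⟨i, hi, h1⟩ := Finset.exists_mem_eq_sup (Finset.univ : Finset (Fin (m + 1)))
      Finset.univ_nonempty (fun i => (g i).toNat)
    rw [h1]
    have h3 : (g i - 1).toNat ≤ Finset.univ.sup (fun i => (g i - 1).toNat) :=
      Finset.le_sup (f := fun i => (g i - 1).toNat) hi
    change (g i).toNat - 1 ≤ _
    refine le_trans ?_ h3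
    omega

/-- Number of walks starting at `-x` and never going above `0`, i.e. `∑_g [max g - steps ...]`. -/
theorem sum_M_pow (m : ℕ) : ∀ (φ : ℕ → ℝ),
    ∑ f ∈ walks (m + 1), φ (M f) = ∑ g ∈ walks m, (φ (M g + 1) + φ (M g - 1)) := by
  intro φ
  rw [sum_walks_succ]
  apply Finset.sum_congr rfl
  intro g hg
  unfold walks at hg
  rw [mem_homs] at hg
  rw [M_cons, M_cons, M_add_one g hg.1, M_sub_one]

theorem choose_half (m : ℕ) : m.choose ((m + 1) / 2) = m.choose (m / 2) := by
  have h1 : (m + 1) / 2 = m - m / 2 := by omega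
  rw [h1]
  exact Nat.choose_symm (by omega)

/-- The number of `m`-step walks with maximum `≤ x`, in differenced form. -/
theorem sum_choose (k : ℕ) : ∀ m : ℕ,
    ∑ f ∈ walks m, ((k.choose ((k + M f + 1) / 2) : ℕ) : ℝ) =
      (((k + m).choose ((k + m + 1) / 2) : ℕ) : ℝ) := by
  intro m
  induction m generalizing k with
  | zero =>
    have h1 : walks 0 = {fun _ => 0} := walks_zero
    rw [h1, Finset.sum_singleton]
    simp [M]
  | succ m ih =>
    rw [sum_M_pow m (fun x => ((k.choose ((k + x + 1) / 2) : ℕ) : ℝ))]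
    have h2 : ∀ x : ℕ, ((k.choose ((k + (x + 1) + 1) / 2) : ℕ) : ℝ) +
        ((k.choose ((k + (x - 1) + 1) / 2) : ℕ) : ℝ) =
        (((k + 1).choose ((k + 1 + x + 1) / 2) : ℕ) : ℝ) := by
      intro x
      rw [← Nat.cast_add]
      congr 1
      have h3 : (k + 1 + x + 1) / 2 = (k + x) / 2 + 1 := by omega
      rw [h3, Nat.choose_succ_succ, add_comm]
      have h4 : (k + (x + 1) + 1) / 2 = (k + x) / 2 + 1 := by omega
      rw [h4]
      congr 1
      rcases Nat.eq_zero_or_pos x with rfl | hx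
      · exact choose_half k
      · have h5 : (k + (x - 1) + 1) / 2 = (k + x) / 2 := by
          congr 1
          omega
        rw [h5]
    rw [Finset.sum_congr rfl (fun g _ => h2 (M g)), ih (k + 1)]
    congr 2 <;> omega

/-- Number of walks never going above `0`. -/
theorem sum_zero (m : ℕ) : ∑ f ∈ walks m, (if M f = 0 then (1 : ℝ) else 0) =
    ((m.choose ((m + 1) / 2) : ℕ) : ℝ) := by
  have h1 := sum_choose 0 m
  simp only [zero_add] at h1
  rw [← h1]
  apply Finset.sum_congr rfl
  intro f _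
  by_cases h : M f = 0
  · simp [h]
  · rw [if_neg h, Nat.choose_eq_zero_of_lt (by omega)]
    simp

theorem sum_M (m : ℕ) : ∑ f ∈ walks m, (M f : ℝ) =
    2 ^ m * ((1 / 2) * ∑ i ∈ Finset.range m, ((i.choose ((i + 1) / 2) : ℕ) : ℝ) / 2 ^ i) := by
  induction m with
  | zero =>
    have h1 : walks 0 = {fun _ => 0} := walks_zero
    rw [h1, Finset.sum_singleton]
    simp [M]
  | succ m ih =>
    rw [sum_M_pow m (fun x => (x : ℝ))]
    have h2 : ∀ x : ℕ, ((x + 1 : ℕ) : ℝ) + ((x - 1 : ℕ) : ℝ) =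
        2 * (x : ℝ) + (if x = 0 then (1 : ℝ) else 0) := by
      intro x
      rcases Nat.eq_zero_or_pos x with rfl | hx
      · simp
      · rw [if_neg (by omega), Nat.cast_sub (by omega)]
        push_cast
        ring
    rw [Finset.sum_congr rfl (fun g _ => h2 (M g)), Finset.sum_add_distrib, ← Finset.mul_sum, ih,
      sum_zero, Finset.sum_range_succ, pow_succ]
    have : (2 : ℝ) ^ m ≠ 0 := by positivity
    field_simp

/-- Intermediate values. -/
theorem exists_value {V : Type} {G : SimpleGraph V} {f : V → ℤ} (hf : IsStep G f) {u v : V}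
    (p : G.Walk u v) (a : ℤ) (h1 : f u ≤ a) (h2 : a ≤ f v) : ∃ w, f w = a := by
  induction p with
  | nil =>
    rename_i u
    exact ⟨u, by omega⟩
  | cons h p ih =>
    rename_i u w v
    by_cases h3 : f w ≤ a
    · exact ih h3 h2
    · have h4 := hf u w h
      rcases abs_eq (by norm_num : (0 : ℤ) ≤ 1) |>.mp h4 with h5 | h5
      · omega
      · exact ⟨u, by omega⟩

theorem card_image_ge {m : ℕ} (f : Fin (m + 1) → ℤ) (hf : f ∈ walks m) :
    M f + M (fun i => - f i) + 1 ≤ (univ.image f).card := by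
  unfold walks at hf
  rw [mem_homs] at hf
  have hsub : Finset.Icc (-(M (fun i => - f i) : ℤ)) (M f : ℤ) ⊆ univ.image f := by
    intro a ha
    rw [Finset.mem_Icc] at ha
    rw [Finset.mem_image]
    by_cases h0 : 0 ≤ a
    · obtain ⟨i, _, h1⟩ := Finset.exists_mem_eq_sup (Finset.univ : Finset (Fin (m + 1)))
        Finset.univ_nonempty (fun i => (f i).toNat)
      have h2 : M f = (f i).toNat := h1
      by_cases h3 : a = 0
      · exact ⟨0, mem_univ _, by rw [hf.1, h3]⟩
      · have h4 : a ≤ f i := by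
          have := ha.2
          rw [h2] at this
          omega
        obtain ⟨p⟩ := (SimpleGraph.pathGraph_connected m) 0 i
        obtain ⟨w, hw⟩ := exists_value hf.2 p a (by rw [hf.1]; exact h0) h4
        exact ⟨w, mem_univ _, hw⟩
    · obtain ⟨i, _, h1⟩ := Finset.exists_mem_eq_sup (Finset.univ : Finset (Fin (m + 1)))
        Finset.univ_nonempty (fun i => (- f i).toNat)
      have h2 : M (fun i => - f i) = (- f i).toNat := h1
      have h4 : f i ≤ a := by
        have := ha.1
        rw [h2] at this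
        omega
      obtain ⟨p⟩ := (SimpleGraph.pathGraph_connected m) i 0
      obtain ⟨w, hw⟩ := exists_value hf.2 p a h4 (by rw [hf.1]; omega)
      exact ⟨w, mem_univ _, hw⟩
  have h1 := Finset.card_le_card hsub
  rw [Int.card_Icc] at h1
  omega

/-- Lower bound for the average number of values of the path. -/
theorem sum_card_walks_ge (m : ℕ) : 2 ^ m *
    (1 + ∑ i ∈ Finset.range m, ((i.choose ((i + 1) / 2) : ℕ) : ℝ) / 2 ^ i) ≤
      ∑ f ∈ walks m, ((univ.image f).card : ℝ) := by
  have h1 : ∑ f ∈ walks m, ((M f : ℝ) + (M (fun i => - f i) : ℝ) + 1) ≤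
      ∑ f ∈ walks m, ((univ.image f).card : ℝ) := by
    apply Finset.sum_le_sum
    intro f hf
    exact_mod_cast card_image_ge f hf
  refine le_trans (le_of_eq ?_) h1
  rw [Finset.sum_add_distrib, Finset.sum_add_distrib, Finset.sum_const, nsmul_eq_mul, mul_one,
    card_walks]
  have h2 : ∑ f ∈ walks m, (M (fun i => - f i) : ℝ) = ∑ f ∈ walks m, (M f : ℝ) :=
    sum_neg (SimpleGraph.pathGraph_connected m) 0 (fun f => (M f : ℝ))
  rw [h2, sum_M]
  ring

/-- Closed form of the sum. -/
theorem sum_closed (k : ℕ) :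
    (1 + ∑ i ∈ Finset.range (2 * k), ((i.choose ((i + 1) / 2) : ℕ) : ℝ) / 2 ^ i) =
      (4 * k + 1) * (k.centralBinom : ℝ) / 4 ^ k := by
  induction k with
  | zero => simp
  | succ k ih =>
    rw [show 2 * (k + 1) = 2 * k + 1 + 1 by ring, Finset.sum_range_succ, Finset.sum_range_succ,
      ← add_assoc, ← add_assoc, ih]
    have h1 : (2 * k + 1) / 2 = k := by omega
    have h2 : (2 * k + 1 + 1) / 2 = k + 1 := by omega
    rw [h1, h2]
    have h3 : (2 * k).choose k = k.centralBinom := rfl
    rw [h3]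
    have h4 : (k + 1).centralBinom = 2 * (2 * k + 1).choose (k + 1) := by
      have h5 : (k + 1).centralBinom = (2 * k + 1 + 1).choose (k + 1) := rfl
      rw [h5, Nat.choose_succ_succ]
      have h6 : (2 * k + 1).choose k = (2 * k + 1).choose (k + 1) :=
        Nat.choose_symm_of_eq_add (by omega)
      rw [h6]
      ring
    have h5 := Nat.succ_mul_centralBinom_succ k
    have h6 : ((k + 1 : ℕ) : ℝ) * ((k + 1).centralBinom : ℝ) =
        2 * (2 * k + 1) * (k.centralBinom : ℝ) := by exact_mod_cast h5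
    have h7 : ((2 * k + 1).choose (k + 1) : ℝ) = ((k + 1).centralBinom : ℝ) / 2 := by
      rw [h4]; push_cast; ring
    rw [h7]
    have h8 : (2 : ℝ) ^ (2 * k) = 4 ^ k := by rw [pow_mul]; norm_num
    have h9 : (2 : ℝ) ^ (2 * k + 1) = 2 * 4 ^ k := by rw [pow_succ, h8]; ring
    rw [h8, h9, pow_succ]
    have h10 : (4 : ℝ) ^ k ≠ 0 := by positivity
    push_cast at h6 ⊢
    field_simp
    linarith

theorem sum_mono (m₁ m₂ : ℕ) (h : m₁ ≤ m₂) :
    (1 + ∑ i ∈ Finset.range m₁, ((i.choose ((i + 1) / 2) : ℕ) : ℝ) / 2 ^ i) ≤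
    (1 + ∑ i ∈ Finset.range m₂, ((i.choose ((i + 1) / 2) : ℕ) : ℝ) / 2 ^ i) := by
  have := Finset.sum_le_sum_of_subset_of_nonneg (f := fun i =>
    ((i.choose ((i + 1) / 2) : ℕ) : ℝ) / 2 ^ i) (Finset.range_mono h)
    (fun _ _ _ => by positivity)
  linarith

/-- `√k · C(2k,k)/4^k` is increasing; numerical lower bound from `k = 16` on. -/
theorem centralBinom_lower (k : ℕ) (hk : 16 ≤ k) :
    (0.5597 : ℝ) ^ 2 ≤ k * ((k.centralBinom : ℝ) / 4 ^ k) ^ 2 := by
  induction k, hk using Nat.le_induction with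
  | base =>
    have h1 : Nat.centralBinom 16 = 601080390 := by decide
    rw [h1]
    norm_num
  | succ k hk ih =>
    refine ih.trans ?_
    have h5 := Nat.succ_mul_centralBinom_succ k
    have h6 : ((k + 1 : ℕ) : ℝ) * ((k + 1).centralBinom : ℝ) =
        2 * (2 * k + 1) * (k.centralBinom : ℝ) := by exact_mod_cast h5
    have hk0 : (0 : ℝ) ≤ k := Nat.cast_nonneg k
    have h7 : ((k + 1).centralBinom : ℝ) / 4 ^ (k + 1) =
        ((2 * k + 1) / (2 * (k + 1))) * ((k.centralBinom : ℝ) / 4 ^ k) := by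
      rw [pow_succ]
      push_cast at h6
      field_simp
      linarith
    rw [h7, mul_pow]
    push_cast
    have h8 : (k : ℝ) ≤ (k + 1) * ((2 * k + 1) / (2 * (k + 1))) ^ 2 := by
      have h9 : ((k : ℝ) + 1) * ((2 * k + 1) / (2 * (k + 1))) ^ 2 =
          (2 * k + 1) ^ 2 / (4 * (k + 1)) := by
        field_simp
        ring
      rw [h9, le_div_iff₀ (by positivity)]
      nlinarith
    calc (k : ℝ) * ((k.centralBinom : ℝ) / 4 ^ k) ^ 2
        ≤ ((k + 1) * ((2 * k + 1) / (2 * (k + 1))) ^ 2) * ((k.centralBinom : ℝ) / 4 ^ k) ^ 2 :=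
          mul_le_mul_of_nonneg_right h8 (sq_nonneg _)
      _ = _ := by ring

/-- Numerical lower bound for the path on `n` vertices, `n ≥ 34`. -/
theorem path_lower (m : ℕ) (hm : 33 ≤ m) : 2 ^ m * (1.583 * Real.sqrt (m - 1)) ≤
    ∑ f ∈ walks m, ((univ.image f).card : ℝ) := by
  refine le_trans ?_ (sum_card_walks_ge m)
  apply mul_le_mul_of_nonneg_left _ (by positivity)
  set k := m / 2 with hk
  have hk16 : 16 ≤ k := by omega
  have h1 := sum_mono (2 * k) m (by omega)
  rw [sum_closed] at h1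
  refine le_trans ?_ h1
  have h2 := centralBinom_lower k hk16
  have hk0 : (0 : ℝ) < k := by
    have : 0 < k := by omega
    exact_mod_cast this
  set u : ℝ := (k.centralBinom : ℝ) / 4 ^ k with hu
  have hu0 : 0 ≤ u := by positivity
  have h3 : (4 * (k : ℝ) + 1) * (k.centralBinom : ℝ) / 4 ^ k = (4 * k + 1) * u := by
    rw [hu]; ring
  rw [h3]
  have h4 : (m : ℝ) - 1 ≤ 2 * k := by
    have : m ≤ 2 * k + 1 := by omega
    have : (m : ℝ) ≤ 2 * k + 1 := by exact_mod_cast this
    linarith
  have h5 : Real.sqrt (m - 1) ≤ Real.sqrt (2 * k) := Real.sqrt_le_sqrt h4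
  have h6 : 1.583 * Real.sqrt (2 * k) ≤ 4 * k * u := by
    apply le_of_sq_le_sq
    · rw [mul_pow, Real.sq_sqrt (by positivity)]
      have h7 : (4 * (k : ℝ) * u) ^ 2 = 16 * k * (k * u ^ 2) := by ring
      rw [h7]
      nlinarith
    · positivity
  have h7 : 1.583 * Real.sqrt (m - 1) ≤ 1.583 * Real.sqrt (2 * k) := by linarith
  nlinarith

end Pool.Agent.BHM
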