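import Mathlib
import Pool.Agent.BHM.Chain
import Pool.Agent.BHM.Path

/-!
# Comparison of the chaining bound with the path
-/

namespace Pool.Agent.BHM

open Finset

theorem log_hundred : Real.log 100 ≤ 4.622 := by
  have h1 : (100 : ℝ) ^ 3 ≤ 2 ^ 20 := by norm_num
  have h2 : Real.log ((100 : ℝ) ^ 3) ≤ Real.log (2 ^ 20) := Real.log_le_log (by norm_num) h1
  rw [Real.log_pow, Real.log_pow] at h2
  have h3 := Real.log_two_lt_d9
  push_cast at h2
  linarith

theorem log_4400 : Real.log 4400 ≤ 8.3922 := by
  have h1 : (4400 : ℝ) = 2 ^ 12 * (4400 / 4096) := by norm_num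
  rw [h1, Real.log_mul (by norm_num) (by norm_num), Real.log_pow]
  have h2 := Real.log_le_sub_one_of_pos (show (0 : ℝ) < 4400 / 4096 by norm_num)
  have h3 := Real.log_two_lt_d9
  push_cast
  norm_num at h2 ⊢
  linarith

variable {n : ℕ}

/-- A bound of five times the path, general connected bipartite graphs. -/
theorem five_bound {G : SimpleGraph (Fin (n + 1))} (hG : G.Connected) (v₀ : Fin (n + 1)) :
    ∑ f ∈ homs G hG v₀, ((univ.image f).card : ℝ) ≤ (homs G hG v₀).card *
      (5 * ((∑ f ∈ walks n, ((univ.image f).card : ℝ)) / 2 ^ n)) := by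
  have h2n : (0 : ℝ) < 2 ^ n := by positivity
  -- trivial bound
  have htriv : ∑ f ∈ homs G hG v₀, ((univ.image f).card : ℝ) ≤
      (homs G hG v₀).card * ((n : ℝ) + 1) := by
    calc _ ≤ ∑ f ∈ homs G hG v₀, ((n : ℝ) + 1) := by
          apply Finset.sum_le_sum
          intro f _
          have h1 : (univ.image f).card ≤ (univ : Finset (Fin (n + 1))).card :=
            Finset.card_image_le
          rw [Finset.card_univ, Fintype.card_fin] at h1
          exact_mod_cast h1
      _ = _ := by rw [Finset.sum_const, nsmul_eq_mul]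
  have hlow := sum_card_walks_ge n
  have hlow' : 1 + ∑ i ∈ Finset.range n, ((i.choose ((i + 1) / 2) : ℕ) : ℝ) / 2 ^ i ≤
      (∑ f ∈ walks n, ((univ.image f).card : ℝ)) / 2 ^ n := by
    rw [le_div_iff₀ h2n, mul_comm]
    exact hlow
  by_cases hn : n ≤ 32
  · refine htriv.trans (mul_le_mul_of_nonneg_left ?_ (Nat.cast_nonneg _))
    rcases Nat.lt_or_ge n 4 with h4 | h4
    · have h5 := sum_mono (2 * 0) n (by omega)
      rw [sum_closed] at h5
      have h6 : (n : ℝ) ≤ 3 := by exact_mod_cast (show n ≤ 3 by omega)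
      norm_num at h5
      linarith
    · rcases Nat.lt_or_ge n 16 with h16 | h16
      · have h5 := sum_mono (2 * 2) n (by omega)
        rw [sum_closed] at h5
        have h6 : (n : ℝ) ≤ 15 := by exact_mod_cast (show n ≤ 15 by omega)
        have h7 : Nat.centralBinom 2 = 6 := by decide
        rw [h7] at h5
        norm_num at h5
        linarith
      · rcases Nat.lt_or_ge n 32 with h32 | h32
        · have h5 := sum_mono (2 * 8) n (by omega)
          rw [sum_closed] at h5
          have h6 : (n : ℝ) ≤ 31 := by exact_mod_cast (show n ≤ 31 by omega)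
          have h7 : Nat.centralBinom 8 = 12870 := by decide
          rw [h7] at h5
          norm_num at h5
          linarith
        · have h5 := sum_mono (2 * 16) n (by omega)
          rw [sum_closed] at h5
          have h6 : (n : ℝ) ≤ 32 := by exact_mod_cast (show n ≤ 32 by omega)
          have h7 : Nat.centralBinom 16 = 601080390 := by decide
          rw [h7] at h5
          norm_num at h5
          linarith
  · have hn33 : 33 ≤ n := by omega
    have hpl := path_lower n hn33
    have hpl' : 1.583 * Real.sqrt (n - 1) ≤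
        (∑ f ∈ walks n, ((univ.image f).card : ℝ)) / 2 ^ n := by
      rw [le_div_iff₀ h2n, mul_comm]
      exact hpl
    have hup := sum_card_le hG v₀ v₀ (n + 1) (by omega) (by simp)
      (fun x => by
        obtain ⟨q, hq⟩ := (hG v₀ x).exists_isPath
        have h1 := (SimpleGraph.dist_le q).trans_lt hq.length_lt
        simpa using h1) 3.2 (by norm_num)
    refine hup.trans (mul_le_mul_of_nonneg_left ?_ (Nat.cast_nonneg _))
    have hcard : (Fintype.card (Fin (n + 1)) : ℝ) = ((n + 1 : ℕ) : ℝ) := by simp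
    rw [hcard]
    have hpos : (0 : ℝ) < ((n + 1 : ℕ) : ℝ) := by positivity
    rw [mul_div_assoc, div_self hpos.ne', mul_one]
    have hl := log_hundred
    set s := Real.sqrt ((n + 1 : ℕ) : ℝ) with hs
    have hN : (34 : ℝ) ≤ ((n + 1 : ℕ) : ℝ) := by
      have : 34 ≤ n + 1 := by omega
      exact_mod_cast this
    have hs1 : 5.83 ≤ s := by
      rw [hs]
      apply Real.le_sqrt_of_sq_le
      norm_num
      push_cast at hN
      linarith
    have hs0 : 0 ≤ s := by linarith
    have hcoef : (10 / 9 * Real.log 100 + 10 / 81 * Real.log 100) / 3.2 + 5 / 9 * 3.2 ≤ 3.565 := by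
      norm_num
      linarith
    have h1 : s * ((10 / 9 * Real.log 100 + 10 / 81 * Real.log 100) / 3.2 + 5 / 9 * 3.2) ≤
        s * 3.565 := mul_le_mul_of_nonneg_left hcoef hs0
    have h2 : 0.97 * s ≤ Real.sqrt ((n : ℝ) - 1) := by
      apply Real.le_sqrt_of_sq_le
      rw [mul_pow, hs, Real.sq_sqrt hpos.le]
      push_cast at hN ⊢
      norm_num
      linarith
    have h3 : 5 * (1.583 * Real.sqrt ((n : ℝ) - 1)) ≤
        5 * ((∑ f ∈ walks n, ((univ.image f).card : ℝ)) / 2 ^ n) := by linarith
    refine le_trans ?_ h3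
    nlinarith

/-- The sharp bound for small radius. -/
theorem small_radius {G : SimpleGraph (Fin (n + 1))} (hG : G.Connected) (v₀ c : Fin (n + 1))
    (hc : ∀ x, 40 * (G.dist c x + 1) ≤ n + 1) :
    ∑ f ∈ homs G hG v₀, ((univ.image f).card : ℝ) ≤ (homs G hG v₀).card *
      ((∑ f ∈ walks n, ((univ.image f).card : ℝ)) / 2 ^ n) := by
  have h2n : (0 : ℝ) < 2 ^ n := by positivity
  have hN40 : 40 ≤ n + 1 := by
    have := hc c
    rw [SimpleGraph.dist_self] at this
    omega
  have hpl := path_lower n (by omega)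
  have hpl' : 1.583 * Real.sqrt (n - 1) ≤
      (∑ f ∈ walks n, ((univ.image f).card : ℝ)) / 2 ^ n := by
    rw [le_div_iff₀ h2n, mul_comm]
    exact hpl
  set R : ℕ := (n + 1) / 40 with hR
  have hR1 : 1 ≤ R := by omega
  have hrad : ∀ x, G.dist c x < R := by
    intro x
    have := hc x
    omega
  have hRn : 40 * R ≤ n + 1 := by omega
  have hRnR : (40 : ℝ) * R ≤ n + 1 := by exact_mod_cast hRn
  have hR1' : (1 : ℝ) ≤ R := by exact_mod_cast hR1
  by_cases hR9 : R ≤ 9
  · -- trivial bound
    have htriv : ∀ f ∈ homs G hG v₀, ((univ.image f).card : ℝ) ≤ 2 * R - 1 := by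
      intro f hf
      rw [mem_homs] at hf
      obtain ⟨x₁, x₂, h⟩ := card_image_le_range f
      have hb : ∀ x, |f c - f x| ≤ (R : ℤ) - 1 := by
        intro x
        obtain ⟨p, hp⟩ := (hG c x).exists_walk_length_eq_dist
        have h1 := abs_sub_le_length (f := f) hf.2 p
        rw [hp] at h1
        have h2 := hrad x
        omega
      have h1 := abs_le.mp (hb x₁)
      have h2 := abs_le.mp (hb x₂)
      have h3 : ((univ.image f).card : ℤ) ≤ 2 * (R : ℤ) - 1 := by omega
      exact_mod_cast h3
    calc ∑ f ∈ homs G hG v₀, ((univ.image f).card : ℝ)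
        ≤ ∑ f ∈ homs G hG v₀, (2 * (R : ℝ) - 1) := Finset.sum_le_sum htriv
      _ = (homs G hG v₀).card * (2 * (R : ℝ) - 1) := by rw [Finset.sum_const, nsmul_eq_mul]
      _ ≤ _ := by
        apply mul_le_mul_of_nonneg_left _ (Nat.cast_nonneg _)
        refine le_trans ?_ hpl'
        have hR9' : (R : ℝ) ≤ 9 := by exact_mod_cast hR9
        have h1 : (2 * (R : ℝ) - 1) / 1.583 ≤ Real.sqrt ((n : ℝ) - 1) := by
          apply Real.le_sqrt_of_sq_le
          rw [div_pow, div_le_iff₀ (by norm_num)]
          nlinarith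
        rw [div_le_iff₀ (by norm_num)] at h1
        linarith
  · have hR10 : 10 ≤ R := by omega
    have hR10' : (10 : ℝ) ≤ R := by exact_mod_cast hR10
    have hup := sum_card_le hG v₀ c R hR1 (by rw [Fintype.card_fin]; omega) hrad 4.2 (by norm_num)
    refine hup.trans (mul_le_mul_of_nonneg_left ?_ (Nat.cast_nonneg _))
    refine le_trans ?_ hpl'
    have hcard : (Fintype.card (Fin (n + 1)) : ℝ) = ((n + 1 : ℕ) : ℝ) := by simp
    rw [hcard]
    have hRpos : (0 : ℝ) < R := by linarith
    have hlog : Real.log (100 * ((n + 1 : ℕ) : ℝ) / R) ≤ 8.3922 := by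
      refine le_trans (Real.log_le_log (by positivity) ?_) log_4400
      rw [div_le_iff₀ hRpos]
      have h1 : n + 1 ≤ 44 * R := by omega
      have h2 : ((n + 1 : ℕ) : ℝ) ≤ 44 * R := by exact_mod_cast h1
      linarith
    have hl := log_hundred
    set s := Real.sqrt (R : ℝ) with hs
    have hs1 : 3 ≤ s := by
      rw [hs]
      apply Real.le_sqrt_of_sq_le
      norm_num
      linarith
    have hs0 : 0 ≤ s := by linarith
    have hcoef : (10 / 9 * Real.log (100 * ((n + 1 : ℕ) : ℝ) / R) + 10 / 81 * Real.log 100) / 4.2 +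
        5 / 9 * 4.2 ≤ 4.69 := by
      norm_num at hlog hl ⊢
      linarith
    have h1 := mul_le_mul_of_nonneg_left hcoef hs0
    have h2 : 6.3 * s ≤ Real.sqrt ((n : ℝ) - 1) := by
      apply Real.le_sqrt_of_sq_le
      rw [mul_pow, hs, Real.sq_sqrt hRpos.le]
      norm_num
      linarith
    nlinarith

end Pool.Agent.BHM
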